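import Mathlib
import Pool.Agent.V1131.AlgEntropy2

open Finset Filter Topology
open scoped Pointwise Classical ENNReal
open Pool.Agent.V1131.AlgEntropy

namespace Pool.Agent.Results.MP_2cfe26_al.EntZero

/-- Sanity check for the definitions: `Halg G X` is the limit of `log |T_{F_i}(α, X)| / |F_i|`
along every right Folner net in the sense of the problem. -/
theorem limit_exists {G A : Type*} [Group G] [AddCommGroup A] [DistribMulAction G A]
    (hG : Amenable G) {X : Finset A} (hX : X.Nonempty) {I : Type*} [Preorder I]
    {F : I → Finset G} (hne : ∀ i, (F i).Nonempty)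
    (hF : ∀ E : Finset G, Tendsto (fun i => (((F i).filter
        (fun s => ¬ ∀ e ∈ E, s * e ∈ F i)).card : ℝ) / (F i).card) atTop (𝓝 0)) :
    Tendsto (fun i => Real.log (∑ g ∈ F i, g • X).card / (F i).card) atTop (𝓝 (Halg G X)) := by
  rw [Halg_eq_infRate hG hX]
  exact (tendsto_infRate hX).comp
    (tendsto_folner_iff_finset.mpr ⟨Filter.Eventually.of_forall hne, hF⟩)

/-- **Main result.** If `G` is amenable and `H` is a subgroup of infinite index with
`ent(α|H) < ∞`, then `ent(α) = 0`. -/
theorem result {G A : Type*} [Group G] [AddCommGroup A] [DistribMulAction G A]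
    (hG : Amenable G) (H : Subgroup G) (hH : H.index = 0) (hfin : ent H A < ⊤) :
    ent G A = 0 :=
  ent_eq_zero hG H hH hfin

end Pool.Agent.Results.MP_2cfe26_al.EntZero
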